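import Pool.Agent.H.MP_a0f451_an.A

namespace Pool.Agent.Results.MP_a0f451_an.Yes

open MeasureTheory Filter Topology AddCircle Pool.Agent.H.MP_a0f451_an

/-- the Poisson kernel -/
noncomputable def Pk (z ξ : ℂ) : ℝ := (1 - ‖z‖ ^ 2) / ‖ξ - z‖ ^ 2

/-- the biharmonic Poisson kernel, as a function on the circle -/
noncomputable def P1 (z : ℂ) (t : UnitAddCircle) : ℂ :=
  (Pk z (toCircle t) * Real.log (Pk z (toCircle t)) : ℝ)

/-- coefficient sequences of analytic functionals -/
def Subexp (ν : ℤ → ℂ) : Prop := ∀ ρ : ℝ, 1 < ρ → ∃ C, ∀ n, ‖ν n‖ ≤ C * ρ ^ n.natAbs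

/-- value of the functional with coefficients `ν` at `g` -/
noncomputable def app (ν : ℤ → ℂ) (g : UnitAddCircle → ℂ) : ℂ := ∑' n, fourierCoeff g n * ν (-n)

lemma rot {r : ℝ} (h0 : 0 ≤ r) (α : T) : P1 (r * fourier 1 α) = fun t => K r (t - α) := by
  ext t
  have : Pk (r * fourier 1 α) (toCircle t) = P r (t - α) := by
    have e : (toCircle t : ℂ) - r * fourier 1 α = (fourier 1 (t - α) - r) * fourier 1 α := by
      rw [sub_mul, fourier_one, fourier_one, ← Circle.coe_mul, ← toCircle_add, sub_add_cancel]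
    rw [Pk, P, e, norm_mul, norm_mul, nf, mul_one, mul_one, Complex.norm_of_nonneg h0]
  rw [P1, K, this]

theorem result (ν : ℤ → ℂ) (hν : Subexp ν) (C : ℝ)
    (h : ∀ z : ℂ, ‖z‖ < 1 → ‖app ν (P1 z)‖ ≤ C * (1 + Real.log ((1 + ‖z‖) / (1 - ‖z‖)))) :
    ∃ φ : UnitAddCircle → ℂ, MemLp φ ⊤ haarAddCircle ∧
      ∀ g : C(UnitAddCircle, ℂ), Summable (fun n => fourierCoeff g n * ν (-n)) ∧
        app ν g = ∫ t, g t * φ t ∂haarAddCircle := by
  obtain ⟨r, hr⟩ : ∃ r : ℕ → ℝ, ∀ j, 1 - r j = Real.exp (-(j + 1)) :=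
    ⟨fun j => 1 - Real.exp (-(j + 1)), fun j => by ring⟩
  have p : ∀ j : ℕ, (0 : ℝ) < j + 1 := fun j => by positivity
  have h0 : ∀ j, 0 ≤ r j := fun j => by
    linarith [hr j, Real.exp_le_one_iff.2 (neg_nonpos.2 (p j).le)]
  have h1 : ∀ j, r j < 1 := fun j => by linarith [hr j, Real.exp_pos (-(j + 1))]
  choose s A s0 s1 H using fun j => est (h0 j) (h1 j)
  simp only [hr, Real.log_exp, neg_neg] at H
  obtain ⟨l, hl⟩ : ∃ l : ℕ → ℤ → ℂ, ∀ j n, l j n = fourierCoeff (K (r j)) (-n) / (j + 1 : ℝ) :=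
    ⟨_, fun _ _ => rfl⟩
  have S : ∀ j, Summable fun n => ‖l j n * ν n‖ := fun j => by
    have := s0 j
    have := s1 j
    obtain ⟨B, hB⟩ := hν (2 / (1 + s j)) (by rw [one_lt_div (by linarith)]; linarith)
    refine .of_nonneg_of_le (fun _ => norm_nonneg _) (fun n => ?_)
      ((geo (r := s j * (2 / (1 + s j))) (by positivity) (by
        rw [← mul_div_assoc, div_lt_one (by linarith)]; linarith)).mul_left (A j / (j + 1) * B))
    have a := (H j (-n)).1
    rw [Int.natAbs_neg] at a
    rw [hl, norm_mul, norm_div, Complex.norm_of_nonneg (p j).le, mul_pow]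
    refine (mul_le_mul (div_le_div_of_nonneg_right a (p j).le) (hB n) (norm_nonneg _)
      (div_nonneg ((norm_nonneg _).trans a) (p j).le)).trans_eq (by ring)
  have U : ∀ j α, HasSum (fun n => l j n * ν n * fourier n α)
      (app ν (P1 (r j * fourier 1 α)) / (j + 1 : ℝ)) := fun j α => by
    have : Summable fun n => l j n * ν n * fourier n α := .of_norm (by simpa [nf] using S j)
    convert this.hasSum using 1
    rw [app, rot (h0 j), ← tsum_div_const, ← (Equiv.neg ℤ).tsum_eq]
    refine tsum_congr fun n => ?_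
    simp only [shift, hl, Equiv.neg_apply, neg_neg]
    ring
  obtain ⟨φ, f1, f2⟩ := lim (B := |C| * 3) (fun j => cont (S j) (U j)) (fun j t => by
    have n : ‖r j * fourier 1 t‖ = r j := by
      rw [norm_mul, nf, mul_one, Complex.norm_of_nonneg (h0 j)]
    have a := h _ (n.trans_lt (h1 j))
    have := h0 j
    have := h1 j
    have l1 := Real.log_nonneg (x := 1 + r j) (by linarith)
    have l2 := Real.log_le_sub_one_of_pos (x := 1 + r j) (by linarith)
    rw [n, Real.log_div (by linarith) (by linarith), hr, Real.log_exp] at a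
    rw [norm_div, Complex.norm_of_nonneg (p j).le, div_le_iff₀ (p j), mul_assoc]
    have : (0 : ℝ) ≤ j := j.cast_nonneg
    exact a.trans (mul_le_mul (le_abs_self _) (by linarith) (by linarith) (abs_nonneg _)))
    (fun j => coef (S j) (U j)) (fun j n => by
      rw [hl, norm_div, Complex.norm_of_nonneg (p j).le, div_le_iff₀ (p j)]
      exact (H j _).2.1) fun n => by
      have t : Tendsto (fun j : ℕ => (j + 1 : ℝ)) atTop atTop :=
        tendsto_atTop_add_const_right _ _ tendsto_natCast_atTop_atTop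
      have := t.inv_tendsto_atTop.add
        (((Real.tendsto_exp_neg_atTop_nhds_zero.comp t).const_mul ((-n).natAbs : ℝ)).mul_const 3)
      simp only [mul_zero, zero_mul, add_zero] at this
      refine tendsto_iff_norm_sub_tendsto_zero.2 (squeeze_zero (fun _ => norm_nonneg _)
        (fun j => ?_) this)
      rw [hl, div_sub_one (by exact_mod_cast (p j).ne'), norm_div,
        Complex.norm_of_nonneg (p j).le, div_le_iff₀ (p j)]
      refine (H j _).2.2.trans_eq ?_
      have := p j
      simp only [Pi.inv_apply, Function.comp]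
      field_simp
  refine ⟨φ, f1, fun g => ?_⟩
  have := pair φ g
  simp only [f2] at this
  exact ⟨this.summable, this.tsum_eq⟩

end Pool.Agent.Results.MP_a0f451_an.Yes
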